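import Pool.Agent.H45.Per

open MeasureTheory Filter Topology Set
open scoped ENNReal

namespace Pool.Agent.Results.MP_942486_an.Counter

theorem result : ∃ f : ℕ → ℝ → ℝ, (∀ n, Measurable (f n)) ∧ (∀ n x, |f n x| ≤ 1) ∧
    (∀ n, 1 ≤ n → ∀ x, f n (x + 1 / n) = f n x) ∧
    ¬ ∃ c : ℝ, ∀ᵐ x, limsup (fun n => f n x) atTop = c := by
  classical
  choose B E hm hp hb h1 h2 using Pool.Agent.H45.Per.block
  let f : ℕ → ℝ → ℝ := fun n => (⋃ m, E m n).indicator 1
  have f01 : ∀ n x, 0 ≤ f n x ∧ f n x ≤ 1 := fun n x => by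
    simp only [f, indicator]; split_ifs <;> simp
  refine ⟨f, fun n => measurable_one.indicator (.iUnion (hm · n)),
    fun n x => by rw [abs_of_nonneg (f01 n x).1]; exact (f01 n x).2,
    fun n _ x => by simp only [f, indicator, mem_iUnion, hp, Pi.one_apply], fun ⟨c, hc⟩ => ?_⟩
  obtain ⟨x, hx, hx0, hx1⟩ : ∃ x ∈ Ico (0 : ℝ) (1 / 8), limsup (fun n => f n x) atTop = c ∧
      ∀ᶠ m in atTop, x ∉ (⋃ n, E m n) ∩ Ico 0 (1 / 8) :=
    Measure.exists_mem_of_measure_ne_zero_of_ae (by simp) (ae_restrict_of_ae (hc.and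
      (ae_eventually_notMem (ne_top_of_le_ne_top (by simp) (ENNReal.tsum_le_tsum h1)))))
  obtain ⟨N, hN⟩ := eventually_atTop.1 hx1
  have c0 : c = 0 := by
    rw [← hx0, limsup_congr (v := fun _ => 0), limsup_const]
    filter_upwards [eventually_gt_atTop ((Finset.range N).sup B)] with n hn
    refine indicator_of_notMem (fun h => ?_) _
    obtain ⟨m, h⟩ := mem_iUnion.1 h
    rcases lt_or_ge m N with hm | hm
    · exact hn.not_ge ((hb m n x h).2.trans (Finset.le_sup (Finset.mem_range.2 hm)))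
    · exact hN m hm ⟨mem_iUnion.2 ⟨n, h⟩, hx⟩
  let V : ℕ → Set ℝ := fun N => ⋃ m ≥ N, (⋃ n, E m n) ∩ Ico 0 1
  have : volume (⋂ N, V N) ≠ 0 := by
    rw [Antitone.measure_iInter (fun a b h => biUnion_subset_biUnion_left fun m hm => le_trans h hm)
      (fun N => (by measurability : MeasurableSet (V N)).nullMeasurableSet)
      ⟨0, ne_top_of_le_ne_top (by simp) (measure_mono (t := Ico 0 1) (by simp [V]))⟩]
    exact (lt_of_lt_of_le (by simp) (le_iInf fun N => (h2 N).trans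
      (measure_mono (subset_biUnion_of_mem (u := fun m => (⋃ n, E m n) ∩ Ico 0 1) (le_refl N))))).ne'
  obtain ⟨y, hy, hy0⟩ := Measure.exists_mem_of_measure_ne_zero_of_ae this (ae_restrict_of_ae hc)
  have : 1 ≤ limsup (fun n => f n y) atTop := le_limsup_of_frequently_le (frequently_atTop.2 fun N => by
    obtain ⟨m, hm, h, -⟩ := mem_iUnion₂.1 (mem_iInter.1 hy N)
    obtain ⟨n, h⟩ := mem_iUnion.1 h
    exact ⟨n, le_trans hm (hb m n y h).1, (indicator_of_mem (mem_iUnion.2 ⟨m, h⟩) (1 : ℝ → ℝ)).ge⟩)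
    (isBoundedUnder_of ⟨1, fun n => (f01 n y).2⟩)
  linarith

end Pool.Agent.Results.MP_942486_an.Counter
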